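import Pool.Agent.Lib.MP_337eac_co.Proof

/-!
Problem MP_337eac_co, Q1: there is a monotone (hence hereditary) class of graphs whose speed is
not MC-finite.  The definitions are in `Pool/Agent/Lib/MP_337eac_co/Defs.lean`.
-/

namespace Pool.Agent.Results.MP_337eac_co.MonotoneNotMCFinite

open Pool.Agent.Lib.MP_337eac_co

/-- **Answer to the question**: there is a monotone (hence hereditary) class of graphs whose
speed is not MC-finite. -/
theorem result : ∃ C : GraphFamily,
    IsMonotoneClass C ∧ IsHereditaryClass C ∧ ¬ MCFinite (speed C) :=
  exists_monotone_not_mcFinite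

end Pool.Agent.Results.MP_337eac_co.MonotoneNotMCFinite
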